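import Pool.Agent.Helper61.NW.Goals2

/-!
# Project NW+: line systems from a permutation (part of DIH)
-/

set_option autoImplicit false

namespace Pool.Agent.Helper38.NW

open Pool.Agent.Helper52.Wq2 Pool.Agent.Helper61.NW

universe u

section

variable {Γ : Type u} (X : Γ → ℤ) (H : ℤ) (p : Equiv.Perm Γ)

theorem X_zpow (h1 : ∀ g, X (p g) = X g + H) (k : ℤ) (g : Γ) : X ((p ^ k) g) = X g + k * H := by
  have hinv : ∀ g, X (p⁻¹ g) = X g - H := by
    intro g
    have := h1 (p⁻¹ g)
    have h0 : p (p⁻¹ g) = g := Equiv.apply_symm_apply p g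
    rw [h0] at this
    omega
  induction k using Int.induction_on with
  | zero => simp
  | succ k ih =>
    rw [zpow_add, zpow_one, Equiv.Perm.mul_apply]
    have h2 : X ((p ^ (k : ℤ)) (p g)) = X ((p ^ (k : ℤ)) g) + H := by
      have : (p ^ (k : ℤ)) (p g) = p ((p ^ (k : ℤ)) g) := by
        rw [← Equiv.Perm.mul_apply, ← Equiv.Perm.mul_apply, ← zpow_add_one, ← zpow_one_add,
          add_comm]
      rw [this, h1]
    rw [h2, ih]
    ring
  | pred k ih =>
    have h2 : (p ^ (-(k : ℤ) - 1)) g = p⁻¹ ((p ^ (-(k : ℤ))) g) := by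
      rw [← Equiv.Perm.mul_apply, ← zpow_neg_one, ← zpow_add]
      congr 2
      ring
    rw [h2, hinv, ih]
    ring

/-- The window. -/
abbrev Win := {g : Γ // 0 ≤ X g ∧ X g < H}

/-- Position. -/
def pos (g : Γ) : ℤ := X g / H

/-- The coordinates. -/
def coo (hH : 0 < H) (h1 : ∀ g, X (p g) = X g + H) : Γ ≃ ℤ × Win X H where
  toFun g := (X g / H, ⟨(p ^ (-(X g / H))) g, by
    rw [X_zpow X H p h1]
    have h2 := Int.emod_nonneg (X g) (show H ≠ 0 by omega)
    have h3 := Int.emod_lt_of_pos (X g) hH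
    have h4 := Int.emod_add_mul_ediv (X g) H
    constructor
    · linarith [mul_comm H (X g / H), neg_mul (X g / H) H]
    · linarith [mul_comm H (X g / H), neg_mul (X g / H) H]⟩)
  invFun x := (p ^ x.1) (x.2 : Γ)
  left_inv g := by
    change (p ^ (X g / H)) ((p ^ (-(X g / H))) g) = g
    rw [← Equiv.Perm.mul_apply, ← zpow_add]
    simp
  right_inv := by
    rintro ⟨a, ⟨g, hg0, hg1⟩⟩
    have h2 : X ((p ^ a) g) / H = a := by
      rw [X_zpow X H p h1, Int.add_mul_ediv_right _ _ (by omega), Int.ediv_eq_zero_of_lt hg0 hg1,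
        zero_add]
    refine Prod.ext h2 ?_
    refine Subtype.ext ?_
    change (p ^ (-(X ((p ^ a) g) / H))) ((p ^ a) g) = g
    rw [h2, ← Equiv.Perm.mul_apply, ← zpow_add]
    simp

end

theorem ls {Γ : Type u} [Group Γ] (S : Set Γ) (hS : IsGen S) (X : Γ → ℤ) (H : ℤ) (hH : 0 < H)
    (p : Equiv.Perm Γ) (h1 : ∀ g, X (p g) = X g + H) (h2 : ∀ g, g⁻¹ * p g ∈ S)
    (h3 : ∀ g, ∀ t ∈ S, |X (g * t) - X g| ≤ H) (h4 : {g | 0 ≤ X g ∧ X g < H}.Finite)
    (m : ℕ) (hm : 0 < m) (c : Γ) (h5 : ∀ g, c * g = (p ^ m) g)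
    (h6 : ∀ g g' : Γ, ∃ (γ : Γ) (e a : ℤ), (e = 1 ∨ e = -1) ∧ γ * g = (p ^ a) g' ∧
      ∀ x, γ * p x = (p ^ e) (γ * x)) :
    ∃ G : SimpleGraph (ℤ × Fin (Nat.card {g : Γ // 0 ≤ X g ∧ X g < H})),
      Lsys (Nat.card {g : Γ // 0 ≤ X g ∧ X g < H}) m G ∧ Nonempty (cay S ≃g G) := by
  classical
  have hfin : Finite (Win X H) := h4
  let ι : Win X H ≃ Fin (Nat.card (Win X H)) := Finite.equivFin (Win X H)
  let Φ := coo X H p hH h1
  let Ψ : Γ ≃ ℤ × Fin (Nat.card (Win X H)) := Φ.trans (Equiv.prodCongr (Equiv.refl ℤ) ι)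
  have hΨs : ∀ (a : ℤ) (j : Fin (Nat.card (Win X H))), Ψ.symm (a, j) = (p ^ a) (ι.symm j : Γ) :=
    fun a j => rfl
  have hXq : ∀ j, 0 ≤ X (ι.symm j : Γ) ∧ X (ι.symm j : Γ) < H := fun j => (ι.symm j).2
  have hX : ∀ (a : ℤ) (j : Fin (Nat.card (Win X H))),
      X (Ψ.symm (a, j)) = X (ι.symm j : Γ) + a * H := by
    intro a j
    rw [hΨs, X_zpow X H p h1]
  have hadd : ∀ (a b : ℤ) (x : Γ), (p ^ (a + b)) x = (p ^ b) ((p ^ a) x) := by
    intro a b x
    rw [add_comm, zpow_add, Equiv.Perm.mul_apply]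
  have hcay : ∀ g g' : Γ, (cay S).Adj g g' ↔ g ≠ g' ∧ g⁻¹ * g' ∈ S := by
    intro g g'
    unfold cay
    rw [SimpleGraph.fromRel_adj]
    refine and_congr_right fun _ => ⟨?_, Or.inl⟩
    rintro (h | h)
    · exact h
    · have := hS.2.1 _ h
      simpa using this
  have hleft : ∀ γ g g' : Γ, (cay S).Adj (γ * g) (γ * g') ↔ (cay S).Adj g g' := by
    intro γ g g'
    rw [hcay, hcay, mul_inv_rev]
    constructor
    · rintro ⟨h, h'⟩
      refine ⟨fun e => h (by rw [e]), ?_⟩
      simpa [mul_assoc] using h'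
    · rintro ⟨h, h'⟩
      refine ⟨fun e => h (mul_left_cancel e), ?_⟩
      simpa [mul_assoc] using h'
  let G : SimpleGraph (ℤ × Fin (Nat.card (Win X H))) := (cay S).comap Ψ.symm
  have hG : ∀ x y, G.Adj x y ↔ (cay S).Adj (Ψ.symm x) (Ψ.symm y) := fun x y => Iff.rfl
  have hwin : Nonempty (Win X H) := ⟨(Φ 1).2⟩
  refine ⟨G, ?_, ⟨(SimpleGraph.Iso.comap Ψ.symm (cay S)).symm⟩⟩
  refine
    { npos := Nat.card_pos
      mpos := hm
      step := ?_
      near := ?_
      per := ?_
      conn := ?_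
      trans := ?_ }
  · intro a j
    rw [hG, hcay, hΨs, hΨs, hadd, zpow_one]
    refine ⟨?_, h2 _⟩
    intro e
    have := h1 ((p ^ a) (ι.symm j : Γ))
    rw [← e] at this
    omega
  · intro a b i j hab
    rw [hG, hcay] at hab
    have h7 := h3 (Ψ.symm (a, i)) _ hab.2
    rw [mul_inv_cancel_left, hX, hX] at h7
    have h8 := hXq i
    have h9 := hXq j
    rw [abs_le] at h7 ⊢
    constructor
    · by_contra hlt
      push Not at hlt
      have : (b - a) * H ≥ 2 * H := by nlinarith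
      nlinarith
    · by_contra hlt
      push Not at hlt
      have : (a - b) * H ≥ 2 * H := by nlinarith
      nlinarith
  · intro a b i j
    have hc : ∀ (a : ℤ) (i : Fin (Nat.card (Win X H))),
        Ψ.symm (a + m, i) = c * Ψ.symm (a, i) := by
      intro a i
      rw [hΨs, hΨs, hadd, h5, zpow_natCast]
    rw [hG, hG, hc, hc, hleft]
  · refine ⟨⟨Ψ 1, trivial⟩, ?_⟩
    rintro A - ⟨x₀, hx₀⟩ hcl x -
    have key : ∀ u : Γ, u ∈ Subgroup.closure S → ∀ g : Γ, (Ψ g ∈ A ↔ Ψ (g * u) ∈ A) := by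
      intro u hu
      induction hu using Subgroup.closure_induction with
      | mem u hu =>
        intro g
        have hne : g ≠ g * u := by
          intro e
          have : u = 1 := by
            have := mul_left_cancel (a := g) (b := 1) (c := u) (by rw [mul_one]; exact e)
            exact this.symm
          rw [this] at hu
          exact hS.2.2 hu
        have hadj : (cay S).Adj g (g * u) := by
          rw [hcay]
          exact ⟨hne, by simpa using hu⟩
        have hadj' : G.Adj (Ψ g) (Ψ (g * u)) := by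
          rw [hG, Equiv.symm_apply_apply, Equiv.symm_apply_apply]
          exact hadj
        exact ⟨fun h => hcl _ h _ trivial hadj', fun h => hcl _ h _ trivial hadj'.symm⟩
      | one => intro g; rw [mul_one]
      | mul u v _ _ hu hv =>
        intro g
        rw [← mul_assoc, ← hv, ← hu]
      | inv u _ hu =>
        intro g
        rw [hu (g * u⁻¹), inv_mul_cancel_right]
    have h7 := (key ((Ψ.symm x₀)⁻¹ * Ψ.symm x) (by rw [hS.1]; trivial) (Ψ.symm x₀)).1
      (by rwa [Equiv.apply_symm_apply])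
    rwa [mul_inv_cancel_left, Equiv.apply_symm_apply] at h7
  · intro i j
    obtain ⟨γ, e, a, he, hγ, hcomm⟩ := h6 (ι.symm i : Γ) (ι.symm j : Γ)
    have hconj : ∀ (b : ℤ) (x : Γ), γ * (p ^ b) x = (p ^ (e * b)) (γ * x) := by
      intro b x
      let L : Equiv.Perm Γ := Equiv.mulLeft γ
      have hL : L * p * L⁻¹ = p ^ e := by
        ext x
        rw [Equiv.Perm.mul_apply, Equiv.Perm.mul_apply]
        change γ * p (L⁻¹ x) = _
        rw [hcomm]
        congr 1
        change L (L⁻¹ x) = x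
        exact Equiv.apply_symm_apply L x
      have hL2 : L * p ^ b * L⁻¹ = p ^ (e * b) := by
        rw [zpow_mul, ← hL, conj_zpow]
      have := congrArg (fun f : Equiv.Perm Γ => f (γ * x)) hL2
      simp only [Equiv.Perm.mul_apply] at this
      rw [← this]
      have h8 : L⁻¹ (γ * x) = x := by
        change L⁻¹ (L x) = x
        exact Equiv.symm_apply_apply L x
      rw [h8]
      rfl
    have he2 : e * e = 1 := by rcases he with rfl | rfl <;> norm_num
    -- the action on the lines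
    let σ : Fin (Nat.card (Win X H)) → Fin (Nat.card (Win X H)) := fun k =>
      (Ψ (γ * (ι.symm k : Γ))).2
    let d : Fin (Nat.card (Win X H)) → ℤ := fun k => (Ψ (γ * (ι.symm k : Γ))).1
    have hσ : ∀ k, γ * (ι.symm k : Γ) = (p ^ d k) (ι.symm (σ k) : Γ) := by
      intro k
      rw [← hΨs]
      exact (Equiv.symm_apply_apply Ψ _).symm
    have hσinj : Function.Injective σ := by
      intro k k' hkk
      have h7 := hσ k
      have h8 := hσ k'
      rw [hkk] at h7
      have h9 : γ * (ι.symm k : Γ) = (p ^ (d k - d k')) (γ * (ι.symm k' : Γ)) := by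
        rw [h7, h8, ← hadd]
        congr 2
        ring
      have h10 : γ * (ι.symm k : Γ) = γ * (p ^ (e * (d k - d k'))) (ι.symm k' : Γ) := by
        rw [hconj, ← mul_assoc, he2, one_mul]
        exact h9
      have h11 := mul_left_cancel h10
      have h12 : Ψ.symm (0, k) = Ψ.symm (e * (d k - d k'), k') := by
        rw [hΨs, hΨs, zpow_zero]
        exact h11
      exact (Prod.ext_iff.1 (Ψ.symm.injective h12)).2
    let τ : Equiv.Perm (Fin (Nat.card (Win X H))) :=
      Equiv.ofBijective σ (Finite.injective_iff_bijective.1 hσinj)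
    let f : G ≃g G :=
      { toEquiv := (Ψ.symm.trans (Equiv.mulLeft γ)).trans Ψ
        map_rel_iff' := by
          intro x y
          change G.Adj (Ψ (γ * Ψ.symm x)) (Ψ (γ * Ψ.symm y)) ↔ G.Adj x y
          rw [hG, hG, Equiv.symm_apply_apply, Equiv.symm_apply_apply, hleft] }
    refine ⟨f, τ, e, d, he, ?_, ?_⟩
    · change σ i = j
      have h7 : Ψ (γ * (ι.symm i : Γ)) = (a, j) := by
        rw [hγ, ← hΨs, Equiv.apply_symm_apply]
      change (Ψ (γ * (ι.symm i : Γ))).2 = j
      rw [h7]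
    · intro b k
      change Ψ (γ * Ψ.symm (b, k)) = (e * b + d k, σ k)
      rw [hΨs, hconj, hσ, ← hadd, add_comm (d k), ← hΨs, Equiv.apply_symm_apply]

end Pool.Agent.Helper38.NW
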