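import Pool.Agent.Helper61.NW.Goals

/-!
# Project NW: the packet TWO
-/

set_option autoImplicit false

namespace Pool.Agent.Helper38.NW

open Pool.Agent.Helper52.Wq2 Pool.Agent.Helper61.NW
open scoped Nat

universe u

theorem exists_max {Γ : Type u} [Group Γ] (h : Γ → ℤ) (S : Set Γ) (hS : S.Finite)
    (hne : S.Nonempty) (hinv : ∀ s ∈ S, s⁻¹ ∈ S) (hhinv : ∀ g, h g⁻¹ = - h g) :
    ∃ s ∈ S, 0 ≤ h s ∧ ∀ t ∈ S, |h t| ≤ h s := by
  obtain ⟨s, hs, hmax⟩ := hS.exists_maximalFor (fun t => |h t|) S hne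
  have hmax' : ∀ t ∈ S, |h t| ≤ |h s| := by
    intro t ht
    by_contra hlt
    push Not at hlt
    exact absurd (hmax ht hlt.le) (not_le.2 hlt)
  rcases le_total 0 (h s) with h0 | h0
  · exact ⟨s, hs, h0, fun t ht => by rw [← abs_of_nonneg h0]; exact hmax' t ht⟩
  · refine ⟨s⁻¹, hinv s hs, ?_, ?_⟩
    · rw [hhinv]
      omega
    · intro t ht
      rw [hhinv, ← abs_of_nonpos h0]
      exact hmax' t ht

theorem two : TwoStmt.{u} := by
  classical
  intro Γ _ ψ S hsurj hker hgen hfin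
  let h : Γ → ℤ := fun g => Multiplicative.toAdd (ψ g)
  have hhom : ∀ a b, h (a * b) = h a + h b := by
    intro a b
    simp [h]
  have hone : h 1 = 0 := by simp [h]
  have hinv : ∀ g, h g⁻¹ = - h g := by
    intro g
    simp [h]
  have hpow : ∀ (g : Γ) (k : ℤ), h (g ^ k) = k * h g := by
    intro g k
    simp [h]
  have hsurj' : ∀ k : ℤ, ∃ g, h g = k := by
    intro k
    obtain ⟨g, hg⟩ := hsurj (Multiplicative.ofAdd k)
    exact ⟨g, by simp [h, hg]⟩
  have hSinv : ∀ s ∈ S, s⁻¹ ∈ S := hgen.2.1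
  have hcl : Subgroup.closure S = ⊤ := hgen.1
  -- the generators of positive height
  have hex : ∃ t ∈ S, h t ≠ 0 := by
    by_contra hno
    push Not at hno
    have hle : Subgroup.closure S ≤ ψ.ker := by
      rw [Subgroup.closure_le]
      intro t ht
      have := hno t ht
      rw [SetLike.mem_coe, MonoidHom.mem_ker]
      exact Multiplicative.toAdd.injective (by simpa [h] using this)
    obtain ⟨g, hg⟩ := hsurj' 1
    have h1 : g ∈ ψ.ker := hle (by rw [hcl]; trivial)
    rw [MonoidHom.mem_ker] at h1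
    have : h g = 0 := by simp [h, h1]
    omega
  obtain ⟨t₀, ht₀, ht₀0⟩ := hex
  obtain ⟨s, hs, hs0, hmax⟩ := exists_max h S hfin ⟨t₀, ht₀⟩ hSinv hinv
  have hspos : 0 < h s := by
    have h1 := hmax t₀ ht₀
    have h2 := abs_pos.2 ht₀0
    omega
  obtain ⟨H, hH⟩ : ∃ H : ℕ, h s = H := ⟨(h s).toNat, by omega⟩
  have hHpos : 0 < H := by omega
  -- the kernel
  let K : Subgroup Γ := ψ.ker
  have hmemK : ∀ g, g ∈ K ↔ h g = 0 := by
    intro g
    rw [MonoidHom.mem_ker]
    constructor
    · intro h1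
      simp [h, h1]
    · intro h1
      exact Multiplicative.toAdd.injective (by simpa [h] using h1)
  have hKfin : Finite K := hker
  -- the quotient
  choose r hr using hsurj'
  have hfinQ : Finite (Γ ⧸ Subgroup.zpowers s) := by
    have hsur : Function.Surjective
        (fun x : K × Fin H => (((x.1 : Γ) * r (x.2 : ℕ) : Γ) : Γ ⧸ Subgroup.zpowers s)) := by
      intro q
      obtain ⟨g, rfl⟩ := QuotientGroup.mk_surjective q
      have hHz : (H : ℤ) ≠ 0 := by omega
      have hi0 : 0 ≤ h g % H := Int.emod_nonneg _ hHz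
      have hi1 : h g % H < H := Int.emod_lt_of_pos _ (by omega)
      let i : Fin H := ⟨(h g % H).toNat, by omega⟩
      have hi : ((i : ℕ) : ℤ) = h g % H := by
        change (((h g % H).toNat : ℕ) : ℤ) = _
        omega
      have hk : g * s ^ (- (h g / H)) * (r ((i : ℕ) : ℤ))⁻¹ ∈ K := by
        rw [hmemK, hhom, hhom, hpow, hinv, hr, hi, hH]
        have := Int.emod_add_mul_ediv (h g) H
        linarith [mul_comm (H : ℤ) (h g / H)]
      refine ⟨(⟨_, hk⟩, i), ?_⟩
      change (((g * s ^ (- (h g / H)) * (r ((i : ℕ) : ℤ))⁻¹) * r ((i : ℕ) : ℤ) : Γ) :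
        Γ ⧸ Subgroup.zpowers s) = _
      rw [inv_mul_cancel_right]
      rw [QuotientGroup.eq]
      refine Subgroup.mem_zpowers_iff.2 ⟨h g / H, ?_⟩
      group
    exact Finite.of_surjective _ hsur
  have hKn : Nat.card K ≤ Nat.card (Γ ⧸ Subgroup.zpowers s) := by
    refine Nat.card_le_card_of_injective
      (fun k : K => ((k : Γ) : Γ ⧸ Subgroup.zpowers s)) ?_
    intro k k' hkk
    have h1 : (k : Γ)⁻¹ * k' ∈ Subgroup.zpowers s := QuotientGroup.eq.1 hkk
    obtain ⟨j, hj⟩ := Subgroup.mem_zpowers_iff.1 h1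
    have h2 : h ((k : Γ)⁻¹ * k') = 0 := (hmemK _).1 (K.mul_mem (K.inv_mem k.2) k'.2)
    rw [← hj, hpow, hH] at h2
    have hj0 : j = 0 := by
      rcases mul_eq_zero.1 h2 with h3 | h3
      · exact h3
      · omega
    rw [hj0, zpow_zero] at hj
    exact Subtype.ext (inv_mul_eq_one.1 hj.symm)
  set n := Nat.card (Γ ⧸ Subgroup.zpowers s) with hn
  have hnpos : 0 < n := Nat.card_pos
  have hKpos : 0 < Nat.card K := Nat.card_pos
  -- `s ^ n!` commutes with `K`
  have hcomm : ∀ k ∈ K, s ^ (n !) * k = k * s ^ (n !) := by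
    intro k hk
    let σ : Equiv.Perm K := (MulAut.conjNormal (H := K) s).toEquiv
    have hσ : ∀ (j : ℕ) (x : K), ((σ ^ j) x : Γ) = s ^ j * x * (s ^ j)⁻¹ := by
      intro j
      induction j with
      | zero => intro x; simp
      | succ j ih =>
        intro x
        rw [pow_succ', Equiv.Perm.mul_apply]
        change ((MulAut.conjNormal (H := K) s ((σ ^ j) x) : K) : Γ) = _
        rw [MulAut.conjNormal_apply, ih x, pow_succ']
        group
    have h1 : orderOf σ ∣ (Nat.card K)! := by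
      have := orderOf_dvd_natCard σ
      rwa [Nat.card_perm] at this
    have h2 : σ ^ (n !) = 1 :=
      orderOf_dvd_iff_pow_eq_one.1 (h1.trans (Nat.factorial_dvd_factorial hKn))
    have h3 := hσ (n !) ⟨k, hk⟩
    rw [h2, Equiv.Perm.one_apply] at h3
    have h4 : k = s ^ (n !) * k * (s ^ (n !))⁻¹ := h3
    exact (eq_mul_inv_iff_mul_eq.1 h4).symm
  refine ⟨h, s, H, n, n ! * Nat.card K, ?_⟩
  refine
    { hom := hhom
      ker := ?_
      gen := hgen
      fin := hfin
      hs := hs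
      Hs := hH
      Hpos := hHpos
      max := fun t ht => by rw [← hH]; exact hmax t ht
      card := rfl
      npos := hnpos
      cen := ?_
      mpos := Nat.mul_pos (Nat.factorial_pos n) hKpos
      mle := Nat.mul_le_mul_left _ hKn }
  · refine hker.subset ?_
    intro g hg
    exact (hmemK g).2 hg
  · intro x
    have hc : x * s ^ (n !) * x⁻¹ * (s ^ (n !))⁻¹ ∈ K := by
      rw [hmemK, hhom, hhom, hhom, hinv, hinv]
      ring
    set c := x * s ^ (n !) * x⁻¹ * (s ^ (n !))⁻¹ with hcdef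
    have h1 : x * s ^ (n !) * x⁻¹ = c * s ^ (n !) := by
      rw [hcdef]
      group
    have h2 : Commute c (s ^ (n !)) := (hcomm c hc).symm
    have h3 : c ^ Nat.card K = 1 := by
      have h5 : (⟨c, hc⟩ : K) ^ Nat.card K = 1 := pow_card_eq_one'
      exact congrArg (fun z : K => (z : Γ)) h5
    have h4 : x * s ^ (n ! * Nat.card K) * x⁻¹ = s ^ (n ! * Nat.card K) := by
      rw [pow_mul, ← conj_pow, h1, h2.mul_pow, h3, one_mul]
    calc x * s ^ (n ! * Nat.card K) = x * s ^ (n ! * Nat.card K) * x⁻¹ * x := by group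
      _ = s ^ (n ! * Nat.card K) * x := by rw [h4]

end Pool.Agent.Helper38.NW
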